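import Pool.Agent.V7H92.S251.Run

set_option autoImplicit false
set_option linter.unusedSectionVars false

/-!
# The Steiner system S(5, 6, 252) on the projective line over the field with 251 elements
-/

namespace Pool.Agent.V7H92.S251

open OnePoint Matrix Pool.Agent.V7H92.S5

lemma hle : ∀ i < NB, ∀ j < 6, bcT dB i j ≤ 251 := fun i hi => (chkB_spec (chkB_all i hi)).1

lemma hdist : ∀ i < NB, ∀ j < 6, ∀ k < 6, j < k → bcT dB i j ≠ bcT dB i k :=
  fun i hi => (chkB_spec (chkB_all i hi)).2

theorem steinerX {T : Finset (OnePoint F)} (hT : T.card = 5) :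
    ∃! B, IsBlock NB (bcT dB) B ∧ T ⊆ B :=
  steiner hle (uni_of chkI_all) (exi_of chkU_all) hT

theorem card_X : Fintype.card (OnePoint F) = 252 := by
  rw [show Fintype.card (OnePoint F) = Fintype.card (Option F) from rfl, Fintype.card_option,
    ZMod.card]

/-- transport of a family of sets along a bijection -/
theorem transport {V W : Type*} [DecidableEq V] [DecidableEq W] [Fintype V] [Fintype W]
    (e : V ≃ W) {k t : ℕ} (P : Finset V → Prop)
    (h1 : ∀ b, P b → b.card = k) (h2 : ∀ T : Finset V, T.card = t → ∃! b, P b ∧ T ⊆ b) :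
    ∃ B : Finset (Finset W), (∀ b ∈ B, b.card = k) ∧
      ∀ T : Finset W, T.card = t → ∃! b, b ∈ B ∧ T ⊆ b := by
  classical
  refine ⟨Finset.univ.filter (fun b => P (b.map e.symm.toEmbedding)), ?_, ?_⟩
  · intro b hb
    rw [Finset.mem_filter] at hb
    rw [← h1 _ hb.2, Finset.card_map]
  · intro T hT
    have hT2 : (T.map e.symm.toEmbedding).card = t := by rw [Finset.card_map, hT]
    obtain ⟨b, ⟨hb1, hb2⟩, hb3⟩ := h2 _ hT2
    have inv1 : ∀ b : Finset V, (b.map e.toEmbedding).map e.symm.toEmbedding = b := by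
      intro b
      rw [Finset.map_map]
      ext x
      simp
    have inv2 : ∀ b : Finset W, (b.map e.symm.toEmbedding).map e.toEmbedding = b := by
      intro b
      rw [Finset.map_map]
      ext x
      simp
    refine ⟨b.map e.toEmbedding, ⟨?_, ?_⟩, ?_⟩
    · rw [Finset.mem_filter]
      refine ⟨Finset.mem_univ _, ?_⟩
      rw [inv1]
      exact hb1
    · rw [← inv2 T]
      exact Finset.map_subset_map.2 hb2
    · rintro c ⟨hc1, hc2⟩
      rw [Finset.mem_filter] at hc1
      have := hb3 (c.map e.symm.toEmbedding) ⟨hc1.2, Finset.map_subset_map.2 hc2⟩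
      rw [← this, inv2]

/-- the derived system at the last point -/
theorem derived {n k t : ℕ} (B : Finset (Finset (Fin (n + 1))))
    (h1 : ∀ b ∈ B, b.card = k + 1)
    (h2 : ∀ T : Finset (Fin (n + 1)), T.card = t + 1 → ∃! b, b ∈ B ∧ T ⊆ b) :
    ∃ C : Finset (Finset (Fin n)), (∀ b ∈ C, b.card = k) ∧
      ∀ T : Finset (Fin n), T.card = t → ∃! b, b ∈ C ∧ T ⊆ b := by
  classical
  have notin : ∀ T : Finset (Fin n), Fin.last n ∉ T.map Fin.castSuccEmb := by
    intro T h
    rw [Finset.mem_map] at h
    obtain ⟨x, _, hx⟩ := h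
    exact absurd hx (Fin.castSucc_lt_last x).ne
  have key : ∀ T : Finset (Fin n),
      (insert (Fin.last n) (T.map Fin.castSuccEmb)).card = T.card + 1 := by
    intro T
    rw [Finset.card_insert_of_notMem (notin T), Finset.card_map]
  have sub : ∀ T b : Finset (Fin n), insert (Fin.last n) (T.map Fin.castSuccEmb) ⊆
      insert (Fin.last n) (b.map Fin.castSuccEmb) ↔ T ⊆ b := by
    intro T b
    constructor
    · intro h x hx
      have h3 : Fin.castSuccEmb x ∈ insert (Fin.last n) (b.map Fin.castSuccEmb) :=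
        h (Finset.mem_insert_of_mem (Finset.mem_map_of_mem _ hx))
      rw [Finset.mem_insert] at h3
      rcases h3 with h3 | h3
      · exact absurd h3 (Fin.castSucc_lt_last x).ne
      · rwa [Finset.mem_map'] at h3
    · intro h
      exact Finset.insert_subset_insert _ (Finset.map_subset_map.2 h)
  refine ⟨Finset.univ.filter (fun b => insert (Fin.last n) (b.map Fin.castSuccEmb) ∈ B), ?_, ?_⟩
  · intro b hb
    rw [Finset.mem_filter] at hb
    have := h1 _ hb.2
    rw [key] at this
    omega
  · intro T hT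
    obtain ⟨b, ⟨hb1, hb2⟩, hb3⟩ := h2 (insert (Fin.last n) (T.map Fin.castSuccEmb))
      (by rw [key, hT])
    -- the block without the last point
    obtain ⟨c, hc⟩ : ∃ c : Finset (Fin n), insert (Fin.last n) (c.map Fin.castSuccEmb) = b := by
      refine ⟨Finset.univ.filter (fun x => Fin.castSucc x ∈ b), ?_⟩
      ext y
      simp only [Finset.mem_insert, Finset.mem_map, Finset.mem_filter, Finset.mem_univ, true_and]
      constructor
      · rintro (rfl | ⟨x, hx, rfl⟩)
        · exact hb2 (Finset.mem_insert_self _ _)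
        · exact hx
      · intro hy
        rcases Fin.eq_castSucc_or_eq_last y with ⟨x, rfl⟩ | rfl
        · right
          exact ⟨x, hy, rfl⟩
        · left
          rfl
    refine ⟨c, ⟨?_, ?_⟩, ?_⟩
    · rw [Finset.mem_filter]
      refine ⟨Finset.mem_univ _, ?_⟩
      rw [hc]
      exact hb1
    · rw [← sub, hc]
      exact hb2
    · rintro d ⟨hd1, hd2⟩
      rw [Finset.mem_filter] at hd1
      have e1 := hb3 _ ⟨hd1.2, (sub T d).2 hd2⟩
      rw [← hc] at e1
      apply Finset.Subset.antisymm
      · rw [← sub, e1]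
      · rw [← sub, e1]

theorem design252 : ∃ B : Finset (Finset (Fin 252)), (∀ b ∈ B, b.card = 6) ∧
    ∀ T : Finset (Fin 252), T.card = 5 → ∃! b, b ∈ B ∧ T ⊆ b :=
  transport (Fintype.equivFinOfCardEq card_X) (IsBlock NB (bcT dB))
    (fun _ hb => hb.card hle hdist) (fun _ hT => steinerX hT)

theorem design251 : ∃ B : Finset (Finset (Fin 251)), (∀ b ∈ B, b.card = 5) ∧
    ∀ T : Finset (Fin 251), T.card = 4 → ∃! b, b ∈ B ∧ T ⊆ b := by
  obtain ⟨B, h1, h2⟩ := design252
  exact derived B h1 h2

end Pool.Agent.V7H92.S251
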